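import Pool.Agent.Helper17.SL.GoalsZE

/-!
# Project SL, packet ZJ: translations
-/

namespace Pool.Agent.Helper17.SL.PkZJ

open MvPolynomial Module

universe u v w x y z

section
variable {K : Type u} [Field K] {I : Type x} {J : Type y} [Fintype I] [Fintype J]

/-- the polynomials of weight at most `W` -/
noncomputable def FW (K : Type u) [Field K] (I : Type x) (J : Type y) [Fintype I] [Fintype J]
    (T S W : ℕ) : Submodule K (MvPolynomial (I ⊕ J) K) :=
  restrictSupport K {d | wt T S d ≤ W}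

theorem mem_FW {T S W : ℕ} {f : MvPolynomial (I ⊕ J) K} :
    f ∈ FW K I J T S W ↔ ∀ d ∈ f.support, wt T S d ≤ W := by
  unfold FW
  rw [mem_restrictSupport_iff]
  exact Iff.rfl

theorem wt_add (T S : ℕ) (d e : I ⊕ J →₀ ℕ) : wt T S (d + e) = wt T S d + wt T S e := by
  unfold wt
  simp only [Finsupp.coe_add, Pi.add_apply, Finset.sum_add_distrib]
  ring

theorem mul_mem_FW {T S W W' : ℕ} {f g : MvPolynomial (I ⊕ J) K} (hf : f ∈ FW K I J T S W)
    (hg : g ∈ FW K I J T S W') : f * g ∈ FW K I J T S (W + W') := by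
  classical
  rw [mem_FW] at *
  intro d hd
  have := support_mul f g hd
  rw [Finset.mem_add] at this
  obtain ⟨a, ha, b, hb, rfl⟩ := this
  rw [wt_add]
  exact Nat.add_le_add (hf a ha) (hg b hb)

theorem C_mem_FW {T S W : ℕ} (c : K) : (C c : MvPolynomial (I ⊕ J) K) ∈ FW K I J T S W := by
  classical
  rw [mem_FW]
  intro d hd
  have : d = 0 := by
    by_contra h
    rw [MvPolynomial.mem_support_iff, coeff_C, if_neg (Ne.symm h)] at hd
    exact hd rfl
  subst this
  simp [wt]

theorem pow_mem_FW {T S W : ℕ} {f : MvPolynomial (I ⊕ J) K} (hf : f ∈ FW K I J T S W) (n : ℕ) :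
    f ^ n ∈ FW K I J T S (n * W) := by
  induction n with
  | zero => simpa using C_mem_FW (T := T) (S := S) (W := 0) (1 : K)
  | succ n ih =>
    rw [pow_succ, Nat.succ_mul]
    exact mul_mem_FW ih hf

theorem prod_mem_FW {T S : ℕ} {ι : Type*} (s : Finset ι) (f : ι → MvPolynomial (I ⊕ J) K)
    (W : ι → ℕ) (hf : ∀ i ∈ s, f i ∈ FW K I J T S (W i)) :
    ∏ i ∈ s, f i ∈ FW K I J T S (∑ i ∈ s, W i) := by
  classical
  induction s using Finset.induction_on with
  | empty => simpa using C_mem_FW (T := T) (S := S) (W := 0) (1 : K)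
  | insert a s ha ih =>
    rw [Finset.prod_insert ha, Finset.sum_insert ha]
    exact mul_mem_FW (hf a (Finset.mem_insert_self _ _))
      (ih fun i hi ↦ hf i (Finset.mem_insert_of_mem hi))

theorem X_mem_FW {T S W : ℕ} (i : I ⊕ J) (h : wt T S (Finsupp.single i 1) ≤ W) :
    (X i : MvPolynomial (I ⊕ J) K) ∈ FW K I J T S W := by
  classical
  rw [mem_FW]
  intro d hd
  rw [support_X, Finset.mem_singleton] at hd
  rw [hd]
  exact h

theorem wt_inl (T S : ℕ) (i : I) : wt T S (Finsupp.single (Sum.inl i : I ⊕ J) 1) = S := by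
  classical
  simp [wt, Finsupp.single_apply]

theorem wt_inr (T S : ℕ) (j : J) : wt T S (Finsupp.single (Sum.inr j : I ⊕ J) 1) = T := by
  classical
  simp [wt, Finsupp.single_apply]

variable {g : ℕ} (D : Dat K I J g)

theorem tau_inl (a : Fin g → ℤ) (i : I) :
    D.tau a (X (Sum.inl i)) = X (Sum.inl i) + C (D.X a i) := by
  simp [Dat.tau]

theorem tau_inr (a : Fin g → ℤ) (j : J) :
    D.tau a (X (Sum.inr j)) = C (D.Y a j) * X (Sum.inr j) := by
  simp [Dat.tau]

theorem tau_C (a : Fin g → ℤ) (c : K) : D.tau a (C c) = C c := by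
  simp [Dat.tau, algebraMap_eq]

theorem X_zero (i : I) : D.X 0 i = 0 := by
  have h := D.X_add 0 0 i
  rw [add_zero] at h
  exact (left_eq_add.mp h)

theorem tau_X_mem (T S : ℕ) (a : Fin g → ℤ) (i : I ⊕ J) :
    D.tau a (X i) ∈ FW K I J T S (wt T S (Finsupp.single i 1)) := by
  rcases i with i | j
  · rw [tau_inl]
    exact Submodule.add_mem _ (X_mem_FW _ le_rfl) (C_mem_FW _)
  · rw [tau_inr]
    have := mul_mem_FW (T := T) (S := S) (W := 0) (C_mem_FW (D.Y a j))
      (X_mem_FW (K := K) (T := T) (S := S) (Sum.inr j : I ⊕ J) le_rfl)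
    rwa [zero_add] at this

theorem wt_eq_sum (T S : ℕ) (d : I ⊕ J →₀ ℕ) :
    wt T S d = ∑ i, d i * wt T S (Finsupp.single i 1) := by
  rw [Fintype.sum_sum_type]
  simp only [wt_inl, wt_inr]
  unfold wt
  rw [Finset.mul_sum, Finset.mul_sum]
  simp only [mul_comm]

theorem tau_mem (T S W : ℕ) (a : Fin g → ℤ) {f : MvPolynomial (I ⊕ J) K}
    (hf : f ∈ FW K I J T S W) : D.tau a f ∈ FW K I J T S W := by
  classical
  rw [f.as_sum, map_sum]
  refine Submodule.sum_mem _ fun d hd ↦ ?_
  have hd' : wt T S d ≤ W := mem_FW.1 hf d hd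
  rw [monomial_eq, map_mul, tau_C, Finsupp.prod_fintype _ _ (by simp), map_prod]
  have h1 : ∏ i, D.tau a (X i ^ d i) ∈ FW K I J T S (wt T S d) := by
    rw [wt_eq_sum]
    refine prod_mem_FW _ _ _ fun i _ ↦ ?_
    rw [map_pow]
    exact pow_mem_FW (tau_X_mem D T S a i) _
  have h2 := mul_mem_FW (C_mem_FW (T := T) (S := S) (W := 0) (f.coeff d)) h1
  rw [zero_add] at h2
  rw [mem_FW] at h2 ⊢
  exact fun e he ↦ (h2 e he).trans hd'

end

theorem thm : S_ZJ.{u, x, y} := by
  intro K _ I J _ _ g D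
  refine ⟨fun a b f ↦ ?_, fun f ↦ ?_, fun a b f ↦ ?_, fun T S x a f hf ↦ ?_,
    fun s a f hf ↦ ?_⟩
  · have h : (D.tau a).comp (D.tau b) = D.tau (a + b) := by
      ext i
      rcases i with i | j
      · simp only [AlgHom.comp_apply, tau_inl, map_add, tau_C, D.X_add]
        rw [add_assoc]
      · simp only [AlgHom.comp_apply, tau_inr, map_mul, tau_C, D.Y_add]
        ring_nf
    exact DFunLike.congr_fun h f
  · have h : D.tau 0 = AlgHom.id K _ := by
      ext i
      rcases i with i | j
      · simp only [tau_inl, X_zero, map_zero, add_zero, AlgHom.id_apply]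
      · simp only [tau_inr, D.Y_zero, map_one, one_mul, AlgHom.id_apply]
    exact DFunLike.congr_fun h f
  · have h : (aeval (D.pt b)).comp (D.tau a) = aeval (R := K) (D.pt (a + b)) := by
      ext i
      rcases i with i | j
      · simp only [AlgHom.comp_apply, tau_inl, map_add, aeval_X, aeval_C, Dat.pt, Sum.elim_inl,
          D.X_add, Algebra.algebraMap_self, RingHom.id_apply]
        ring
      · simp only [AlgHom.comp_apply, tau_inr, map_mul, aeval_X, aeval_C, Dat.pt, Sum.elim_inr,
          D.Y_add, Algebra.algebraMap_self, RingHom.id_apply]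
    have := DFunLike.congr_fun h f
    simpa [aeval_def, coe_aeval_eq_eval] using this
  · exact tau_mem D T S _ a hf
  · have hle : supported K (s : Set (I ⊕ J)) ≤ (supported K (s : Set (I ⊕ J))).comap (D.tau a) := by
      rw [supported_eq_adjoin_X, Algebra.adjoin_le_iff]
      rintro _ ⟨i, hi, rfl⟩
      have hi' : (X i : MvPolynomial (I ⊕ J) K) ∈ supported K (s : Set (I ⊕ J)) :=
        (X_mem_supported).2 hi
      rw [← supported_eq_adjoin_X]
      show D.tau a (X i) ∈ supported K (s : Set (I ⊕ J))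
      rcases i with i | j
      · rw [tau_inl]
        exact add_mem hi' (Subalgebra.algebraMap_mem _ _)
      · rw [tau_inr]
        exact mul_mem (Subalgebra.algebraMap_mem _ _) hi'
    exact hle hf

end Pool.Agent.Helper17.SL.PkZJ
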